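import Mathlib
import Pool.Agent.Helper945.SolDefs
import Pool.Agent.Helper945.SolProof

set_option autoImplicit false

open Cardinal

namespace Pool.Agent.Results.MP_822856_al.Wild

open Pool.Agent.Helper945.SolDefs

universe u

/-- The solutions of Q1 and Q2.
1, 2: intrinsic description of the solutions of Q1 and of Q2 (`pw x n` is `x ^ (n + 1)`).
3: no solution is finite.
4: on every infinite set `K` there are, up to isomorphism, exactly `2 ^ #K` solutions of Q1 and
exactly `2 ^ #K` solutions of Q2.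
5: on every infinite set there is a family of `2 ^ #K` cancellative solutions of Q1 without any
homomorphism between two different members; for Q2 a family of `2 ^ #K` pairwise non-isomorphic
cancellative solutions.
6, 7: a solution of Q1 (of Q2) with a nonzero additive map to the nonnegative rationals is
isomorphic to the additive semigroup of positive (nonnegative) rationals.
8: for a cancellative commutative semigroup without idempotents, it solves Q1 if and only if it
solves Q2 after adjoining an identity.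
9: the positive cone of a nontrivial totally ordered abelian group solves Q1 if and only if the
group embeds, as an ordered group, in the reals with image a rational subspace whose only
multipliers are the rationals. -/
theorem result :
    (∀ (S : Type u) [CommSemigroup S], IsSol1 S ↔ Nonempty S ∧ (∀ e : S, e * e ≠ e) ∧
      (∀ n, Function.Bijective (fun x : S => pw x n)) ∧
      ∀ φ : S →ₙ* S, ∃ m n, ∀ x, pw (φ x) n = pw x m) ∧
    (∀ (S : Type u) [CommSemigroup S], IsSol2 S ↔ ∃ e : S, (∀ x, e * x = x) ∧ (∃ a, a ≠ e) ∧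
      (∀ a, a * a = a → a = e) ∧ (∀ n, Function.Bijective (fun x : S => pw x n)) ∧
      ∀ φ : S →ₙ* S, (∀ x, φ x = e) ∨ ∃ m n, ∀ x, pw (φ x) n = pw x m) ∧
    (∀ (S : Type u) [CommSemigroup S], IsSol1 S ∨ IsSol2 S → Infinite S) ∧
    (∀ (K : Type u) [Infinite K],
      #(Quotient (iso1 K)) = 2 ^ #K ∧ #(Quotient (iso2 K)) = 2 ^ #K) ∧
    (∀ (K : Type u) [Infinite K],
      (∃ m : Set K → CommSemigroup K, (∀ P, @IsSol1 K (m P)) ∧
        (∀ P, ∀ x y z, (m P).mul x y = (m P).mul x z → y = z) ∧
        ∀ P P', (∃ f : K → K, ∀ x y, f ((m P).mul x y) = (m P').mul (f x) (f y)) → P = P') ∧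
      ∃ m : Set K → CommSemigroup K, (∀ P, @IsSol2 K (m P)) ∧
        (∀ P, ∀ x y z, (m P).mul x y = (m P).mul x z → y = z) ∧
        ∀ P P', IsoRel (m P) (m P') → P = P') ∧
    (∀ (S : Type u) [CommSemigroup S], IsSol1 S →
      (∃ f : S → ℚ, (∀ x y, f (x * y) = f x + f y) ∧ (∀ x, 0 ≤ f x) ∧ ∃ x, f x ≠ 0) →
      Nonempty (S ≃* Multiplicative {q : ℚ // 0 < q})) ∧
    (∀ (S : Type u) [CommSemigroup S], IsSol2 S →
      (∃ f : S → ℚ, (∀ x y, f (x * y) = f x + f y) ∧ (∀ x, 0 ≤ f x) ∧ ∃ x, f x ≠ 0) →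
      Nonempty (S ≃* Multiplicative {q : ℚ // 0 ≤ q})) ∧
    (∀ (S : Type u) [CommSemigroup S], (∀ a b c : S, a * b = a * c → b = c) →
      (∀ e : S, e * e ≠ e) → (IsSol1 S ↔ IsSol2 (WithOne S))) ∧
    (∀ (G : Type u) [AddCommGroup G] [LinearOrder G] [IsOrderedAddMonoid G] [Nontrivial G],
      IsSol1 (Multiplicative {x : G // 0 < x}) ↔ ∃ f : G →+ ℝ, StrictMono f ∧
        (∀ (q : ℚ) (x : G), ∃ y, f y = q * f x) ∧
        ∀ c : ℝ, (∀ x, ∃ y, f y = c * f x) → ∃ q : ℚ, c = q) := by
  refine ⟨fun S _ => Pool.Agent.Helper945.SolProof.criterion1,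
    fun S _ => Pool.Agent.Helper945.SolProof.criterion2, ?_, ?_, ?_, ?_, ?_, ?_, ?_⟩
  · rintro S _ (h | h)
    · exact Pool.Agent.Helper945.SolProof.infinite1 S h
    · exact Pool.Agent.Helper945.SolProof.infinite2 S h
  · intro K _
    exact ⟨Pool.Agent.Helper945.SolProof.count1 K, Pool.Agent.Helper945.SolProof.count2 K⟩
  · intro K _
    exact ⟨Pool.Agent.Helper945.SolProof.family1 K, Pool.Agent.Helper945.SolProof.family2 K⟩
  · rintro S _ h ⟨f, h1, h2, h3⟩
    exact Pool.Agent.Helper945.SolProof.unique1 h f h1 h2 h3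
  · rintro S _ h ⟨f, h1, h2, h3⟩
    exact Pool.Agent.Helper945.SolProof.unique2 h f h1 h2 h3
  · intro S _ hc hid
    exact Pool.Agent.Helper945.SolProof.link hc hid
  · intro G _ _ _ _
    exact Pool.Agent.Helper945.SolProof.ordered1

end Pool.Agent.Results.MP_822856_al.Wild
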